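import Mathlib

/-!
Sufficiency in the theorem of Erdős and Gallai, in the form where the
inequality is assumed for every subset of the index set (no sorting).
The induction lowers a largest and a smallest positive entry by one.
-/

set_option autoImplicit false

namespace Pool.Agent.MP_440a65_co

open Finset Classical

variable {I : Type*} [Fintype I]

/-- The number of neighbours of `i` in `H`. -/
noncomputable def dg (H : SimpleGraph I) (i : I) : ℕ := (univ.filter (fun j => H.Adj i j)).card

lemma dg_add (H : SimpleGraph I) (u v : I) (huv : u ≠ v) (hn : ¬ H.Adj u v) :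
    ∃ H2 : SimpleGraph I, (∀ x y, H2.Adj x y ↔ H.Adj x y ∨ (x = u ∧ y = v) ∨ (x = v ∧ y = u)) ∧
      ∀ i, dg H2 i = dg H i + (if i = u then 1 else 0) + (if i = v then 1 else 0) := by
  obtain ⟨H2, hH2⟩ : ∃ H2 : SimpleGraph I,
      (∀ x y, H2.Adj x y ↔ H.Adj x y ∨ (x = u ∧ y = v) ∨ (x = v ∧ y = u)) := by
    refine ⟨⟨fun x y => H.Adj x y ∨ (x = u ∧ y = v) ∨ (x = v ∧ y = u), ⟨?_⟩, ⟨?_⟩⟩, ?_⟩
    · intro x y h
      rcases h with h | h | h
      · exact Or.inl h.symm
      · exact Or.inr (Or.inr ⟨h.2, h.1⟩)
      · exact Or.inr (Or.inl ⟨h.2, h.1⟩)
    · intro x h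
      rcases h with h | h | h
      · exact H.loopless.irrefl x h
      · exact huv (h.1.symm.trans h.2)
      · exact huv (h.2.symm.trans h.1)
    · intro x y; rfl
  refine ⟨H2, hH2, fun i => ?_⟩
  unfold dg
  by_cases hiu : i = u
  · have h1 : (univ.filter (fun j => H2.Adj i j)) = insert v (univ.filter (fun j => H.Adj i j)) := by
      ext j
      have := hH2 i j
      simp only [mem_filter, mem_univ, true_and, mem_insert]
      subst hiu
      tauto
    rw [h1, card_insert_of_notMem (by subst hiu; simp [hn])]
    have : i ≠ v := by rw [hiu]; exact huv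
    simp [hiu, huv]
  · by_cases hiv : i = v
    · have h1 : (univ.filter (fun j => H2.Adj i j)) = insert u (univ.filter (fun j => H.Adj i j)) := by
        ext j
        have := hH2 i j
        simp only [mem_filter, mem_univ, true_and, mem_insert]
        subst hiv
        tauto
      rw [h1, card_insert_of_notMem (by
        subst hiv; simp only [mem_filter, mem_univ, true_and]; exact fun h => hn h.symm)]
      simp [hiv, huv.symm]
    · have h1 : (univ.filter (fun j => H2.Adj i j)) = (univ.filter (fun j => H.Adj i j)) := by
        ext j
        have := hH2 i j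
        simp only [mem_filter, mem_univ, true_and]
        tauto
      rw [h1]
      simp [hiu, hiv]

lemma dg_remove (H : SimpleGraph I) (u v : I) (ha : H.Adj u v) :
    ∃ H2 : SimpleGraph I, (∀ x y, H2.Adj x y ↔ H.Adj x y ∧ ¬ (x = u ∧ y = v) ∧ ¬ (x = v ∧ y = u)) ∧
      ∀ i, dg H2 i + (if i = u then 1 else 0) + (if i = v then 1 else 0) = dg H i := by
  have huv : u ≠ v := ha.ne
  obtain ⟨H2, hH2⟩ : ∃ H2 : SimpleGraph I,
      (∀ x y, H2.Adj x y ↔ H.Adj x y ∧ ¬ (x = u ∧ y = v) ∧ ¬ (x = v ∧ y = u)) := by
    refine ⟨⟨fun x y => H.Adj x y ∧ ¬ (x = u ∧ y = v) ∧ ¬ (x = v ∧ y = u), ⟨?_⟩, ⟨?_⟩⟩, ?_⟩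
    · intro x y h
      exact ⟨h.1.symm, fun h' => h.2.2 ⟨h'.2, h'.1⟩, fun h' => h.2.1 ⟨h'.2, h'.1⟩⟩
    · exact fun x h => H.loopless.irrefl x h.1
    · intro x y; rfl
  refine ⟨H2, hH2, fun i => ?_⟩
  unfold dg
  by_cases hiu : i = u
  · have h1 : (univ.filter (fun j => H2.Adj i j)) = (univ.filter (fun j => H.Adj i j)).erase v := by
      ext j
      have := hH2 i j
      simp only [mem_filter, mem_univ, true_and, mem_erase]
      subst hiu
      tauto
    rw [h1]
    have := card_erase_add_one (s := univ.filter (fun j => H.Adj i j)) (a := v)
      (by subst hiu; simp [ha])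
    have h3 : i ≠ v := by rw [hiu]; exact huv
    rw [if_pos hiu, if_neg h3, this]
  · by_cases hiv : i = v
    · have h1 : (univ.filter (fun j => H2.Adj i j)) = (univ.filter (fun j => H.Adj i j)).erase u := by
        ext j
        have := hH2 i j
        simp only [mem_filter, mem_univ, true_and, mem_erase]
        subst hiv
        tauto
      rw [h1]
      have := card_erase_add_one (s := univ.filter (fun j => H.Adj i j)) (a := u)
        (by subst hiv; simp only [mem_filter, mem_univ, true_and]; exact ha.symm)
      rw [if_neg hiu, if_pos hiv]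
      exact this
    · have h1 : (univ.filter (fun j => H2.Adj i j)) = (univ.filter (fun j => H.Adj i j)) := by
        ext j
        have := hH2 i j
        simp only [mem_filter, mem_univ, true_and]
        tauto
      rw [h1]
      simp [hiu, hiv]

/-- The Erdős–Gallai inequality for the subset `K`. -/
def EGIneq (d : I → ℕ) (K : Finset I) : Prop :=
  ∑ i ∈ K, d i ≤ K.card * (K.card - 1) + ∑ i ∈ Kᶜ, min K.card (d i)

/-- The switching step: a realisation of `d - 1_t - 1_n` gives one of `d`. -/
lemma lift_real (d : I → ℕ) (t n : I) (htn : t ≠ n) (hn1 : 1 ≤ d n)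
    (hmin : ∀ i, 1 ≤ d i → d n ≤ d i)
    (hcount : d t ≤ ((univ.erase t).filter (fun i => 1 ≤ d i)).card)
    (H : SimpleGraph I)
    (hH : ∀ i, dg H i + (if i = t then 1 else 0) + (if i = n then 1 else 0) = d i) :
    ∃ H2 : SimpleGraph I, ∀ i, dg H2 i = d i := by
  by_cases hadj : H.Adj t n
  · -- find `m` not adjacent to `t`
    have ht : dg H t + 1 = d t := by
      have := hH t
      rw [if_pos rfl, if_neg htn] at this
      exact this
    have hn : dg H n + 1 = d n := by
      have := hH n
      rw [if_pos rfl, if_neg htn.symm] at this
      exact this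
    obtain ⟨m, hm, hmt⟩ : ∃ m, m ∈ (univ.erase t).filter (fun i => 1 ≤ d i) ∧ ¬ H.Adj t m := by
      by_contra hcon
      push Not at hcon
      have : (univ.erase t).filter (fun i => 1 ≤ d i) ⊆ univ.filter (fun j => H.Adj t j) := by
        intro m hm
        simp only [mem_filter, mem_univ, true_and]
        exact hcon m hm
      have := card_le_card this
      unfold dg at ht
      omega
    simp only [mem_filter, mem_erase, mem_univ, and_true] at hm
    obtain ⟨hmt', hm1⟩ := hm
    have hmn : m ≠ n := by
      rintro rfl
      exact hmt hadj
    have hdm : dg H m = d m := by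
      have := hH m
      rw [if_neg hmt', if_neg hmn] at this
      exact this
    have hle := hmin m hm1
    obtain ⟨k, hk1, hk2⟩ : ∃ k, k ∈ (univ.filter (fun j => H.Adj m j)).erase n ∧
        k ∉ (univ.filter (fun j => H.Adj n j)).erase t := by
      by_contra hcon
      push Not at hcon
      have hsub : (univ.filter (fun j => H.Adj m j)).erase n ⊆
        (univ.filter (fun j => H.Adj n j)).erase t := fun x hx => hcon x hx
      have h1 := card_le_card hsub
      have h2 : ((univ.filter (fun j => H.Adj n j)).erase t).card + 1 = dg H n :=
        card_erase_add_one (by simp only [mem_filter, mem_univ, true_and]; exact hadj.symm)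
      have h3 := pred_card_le_card_erase (s := univ.filter (fun j => H.Adj m j)) (a := n)
      unfold dg at *
      omega
    simp only [mem_erase, mem_filter, mem_univ, true_and, ne_eq, not_and] at hk1 hk2
    obtain ⟨hkn, hmk⟩ := hk1
    have hkt : k ≠ t := by
      rintro rfl
      exact hmt hmk.symm
    have hnk : ¬ H.Adj n k := fun h => by
      have := hk2 hkt
      exact this h
    obtain ⟨H1, hH1a, hH1d⟩ := dg_remove H m k hmk
    have hmk' : m ≠ k := hmk.ne
    obtain ⟨H2, hH2a, hH2d⟩ := dg_add H1 t m (Ne.symm hmt') (by
      rw [hH1a]; exact fun h => hmt h.1)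
    obtain ⟨H3, hH3a, hH3d⟩ := dg_add H2 n k (Ne.symm hkn) (by
      rw [hH2a, hH1a]
      rintro (h | h | h)
      · exact hnk h.1
      · exact htn h.1.symm
      · exact hmn h.1.symm)
    refine ⟨H3, fun i => ?_⟩
    have e1 := hH1d i
    have e2 := hH2d i
    have e3 := hH3d i
    have e4 := hH i
    linarith
  · obtain ⟨H2, _, hH2⟩ := dg_add H t n htn hadj
    exact ⟨H2, fun i => by rw [hH2, hH]⟩

/-- The lowered sequence satisfies the inequality for every subset. -/
lemma lowered_ineq (S : ℕ) (d : I → ℕ) (t n : I) (htn : t ≠ n) (hS : ∑ i, d i = S)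
    (heven : Even S) (hEG : ∀ K : Finset I, EGIneq d K) (ht : ∀ i, d i ≤ d t) (hn1 : 1 ≤ d n)
    (d' : I → ℕ)
    (hd' : ∀ i, d' i + (if i = t then 1 else 0) + (if i = n then 1 else 0) = d i)
    (K : Finset I) : EGIneq d' K := by
  have hK := hEG K
  unfold EGIneq at hK ⊢
  have ht1 : 1 ≤ d t := le_trans hn1 (ht n)
  have hdt : d' t + 1 = d t := by
    have := hd' t
    rw [if_pos rfl, if_neg htn] at this
    exact this
  have hdn : d' n + 1 = d n := by
    have := hd' n
    rw [if_pos rfl, if_neg htn.symm] at this
    exact this
  have hdi : ∀ i, i ≠ t → i ≠ n → d' i = d i := by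
    intro i h1 h2
    have := hd' i
    rw [if_neg h1, if_neg h2] at this
    exact this
  have hA : ∑ i ∈ K, d' i + (if t ∈ K then 1 else 0) + (if n ∈ K then 1 else 0) = ∑ i ∈ K, d i := by
    have h1 : ∑ i ∈ K, (d' i + (if i = t then 1 else 0) + (if i = n then 1 else 0)) = ∑ i ∈ K, d i :=
      sum_congr rfl fun i _ => hd' i
    rw [sum_add_distrib, sum_add_distrib] at h1
    simp only [sum_ite_eq'] at h1
    exact h1
  have hB : ∑ i ∈ Kᶜ, min K.card (d' i) + (if t ∈ Kᶜ then (if d t ≤ K.card then 1 else 0) else 0)
      + (if n ∈ Kᶜ then (if d n ≤ K.card then 1 else 0) else 0) = ∑ i ∈ Kᶜ, min K.card (d i) := by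
    have h1 : ∑ i ∈ Kᶜ, (min K.card (d' i) + (if i = t then (if d t ≤ K.card then 1 else 0) else 0)
        + (if i = n then (if d n ≤ K.card then 1 else 0) else 0)) = ∑ i ∈ Kᶜ, min K.card (d i) := by
      refine sum_congr rfl fun i _ => ?_
      by_cases h1 : i = t
      · have h2 : i ≠ n := by rw [h1]; exact htn
        rw [if_pos h1, if_neg h2, h1]
        split_ifs with h3 <;> omega
      · by_cases h2 : i = n
        · rw [if_neg h1, if_pos h2, h2]
          split_ifs with h3 <;> omega
        · rw [if_neg h1, if_neg h2, hdi i h1 h2, add_zero, add_zero]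
    rw [sum_add_distrib, sum_add_distrib] at h1
    simp only [sum_ite_eq'] at h1
    exact h1
  simp only [mem_compl] at hB
  by_cases htK : t ∈ K
  · simp only [htK, if_true, not_true_eq_false, if_false] at hA hB
    split_ifs at hA hB <;> omega
  · by_cases hnK : n ∈ K
    · simp only [htK, hnK, if_true, not_true_eq_false, if_false, not_false_eq_true] at hA hB
      split_ifs at hB <;> omega
    · simp only [htK, hnK, if_true, if_false, not_false_eq_true] at hA hB
      set k := K.card with hk
      rcases Nat.lt_trichotomy (d t) k with hlt | heq | hgt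
      · -- every entry is at most `k - 1`
        have h1 : ∑ i ∈ K, d i ≤ K.card * (k - 1) := by
          have := sum_le_card_nsmul K d (k - 1) (fun i _ => by have := ht i; omega)
          simpa using this
        rw [← hk] at h1
        omega
      · -- every entry is at most `k`; parity is used here
        have h1 : ∑ i ∈ K, d i ≤ K.card * k := by
          have := sum_le_card_nsmul K d k (fun i _ => by have := ht i; omega)
          simpa using this
        rw [← hk] at h1
        have h2 : ∑ i ∈ Kᶜ, min k (d i) = ∑ i ∈ Kᶜ, d i :=
          sum_congr rfl fun i _ => by have := ht i; omega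
        have h3 : ∑ i ∈ K, d i + ∑ i ∈ Kᶜ, d i = S := by rw [sum_add_sum_compl, hS]
        have h4 : d t + d n ≤ ∑ i ∈ Kᶜ, d i := by
          have : ∑ i ∈ ({t, n} : Finset I), d i ≤ ∑ i ∈ Kᶜ, d i := by
            apply sum_le_sum_of_subset
            intro i hi
            simp only [mem_insert, mem_singleton] at hi
            rcases hi with rfl | rfl <;> simpa
          rwa [sum_pair htn] at this
        have h5 : d n ≤ k := by have := ht n; omega
        rw [if_pos (le_of_eq heq), if_pos h5] at hB
        have hk1 : 1 ≤ k := by omega
        have e1 : k * (k - 1) + k = k * k := by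
          obtain ⟨j, hj⟩ : ∃ j, k = j + 1 := ⟨k - 1, by omega⟩
          rw [hj]; simp only [Nat.add_sub_cancel]; ring
        by_contra hcon
        -- equality is forced everywhere, so the sum is odd
        have hodd : S = k * k + k + 1 := by omega
        rw [hodd] at heven
        have h7 : Even (k * k + k) := by
          have := Nat.even_mul_succ_self k
          rwa [mul_add, mul_one] at this
        rw [Nat.even_add_one] at heven
        exact heven h7
      · by_cases hnk : d n ≤ k
        · rw [if_neg (by omega), if_pos hnk] at hB
          -- strictness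
          by_contra hcon
          have hEq : ∑ i ∈ K, d i = k * (k - 1) + ∑ i ∈ Kᶜ, min k (d i) := by omega
          have hK' := hEG (insert t K)
          unfold EGIneq at hK'
          rw [card_insert_of_notMem htK, sum_insert htK, ← hk] at hK'
          simp only [Nat.add_sub_cancel] at hK'
          have hsplit : ∑ i ∈ Kᶜ, min k (d i) = ∑ i ∈ (insert t K)ᶜ, min k (d i) + k := by
            have : Kᶜ = insert t (insert t K)ᶜ := by
              ext i
              simp only [mem_compl, mem_insert, not_or]
              constructor
              · intro h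
                by_cases h' : i = t
                · exact Or.inl h'
                · exact Or.inr ⟨h', h⟩
              · rintro (h | h)
                · rw [h]; exact htK
                · exact h.2
            rw [this, sum_insert (by simp)]
            have : min k (d t) = k := by omega
            rw [this, add_comm]
          set C := ∑ i ∈ (insert t K)ᶜ, min k (d i) with hC
          set q := ((insert t K)ᶜ.filter (fun i => k + 1 ≤ d i)).card with hq
          have hC1 : ∑ i ∈ (insert t K)ᶜ, min (k + 1) (d i) = C + q := by
            rw [hC, hq, card_filter, ← sum_add_distrib]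
            refine sum_congr rfl fun i _ => ?_
            split_ifs <;> omega
          have hC2 : k * q + d n ≤ C := by
            have hn' : n ∈ (insert t K)ᶜ := by
              simp only [mem_compl, mem_insert, not_or]
              exact ⟨htn.symm, hnK⟩
            have : ∑ i ∈ (insert t K)ᶜ, ((if k + 1 ≤ d i then k else 0) + (if i = n then d n else 0)) ≤ C := by
              rw [hC]
              refine sum_le_sum fun i _ => ?_
              by_cases h2 : i = n
              · rw [if_pos h2, h2, if_neg (by omega)]; omega
              · rw [if_neg h2]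
                split_ifs <;> omega
            rw [sum_add_distrib, sum_ite_eq', if_pos hn', ← sum_filter, sum_const, smul_eq_mul, ← hq] at this
            rw [mul_comm]; exact this
          have hA1 : ∑ i ∈ K, d i ≤ k * d t := by
            have := sum_le_card_nsmul K d (d t) (fun i _ => ht i)
            simpa [hk] using this
          have hk1 : 1 ≤ k := by omega
          obtain ⟨j, hj⟩ : ∃ j, k = j + 1 := ⟨k - 1, by omega⟩
          have hdt2 : d t ≤ k + q := by
            have e : k * (k - 1) + k = k * k := by
              rw [hj]; simp only [Nat.add_sub_cancel]; ring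
            have e2 : (k + 1) * k = k * k + k := by ring
            rw [hC1, e2] at hK'
            omega
          have hA2 : k * d t ≤ k * k + k * q := by
            have := Nat.mul_le_mul_left k hdt2
            rw [mul_add] at this
            exact this
          have e : k * (k - 1) + k = k * k := by
            rw [hj]; simp only [Nat.add_sub_cancel]; ring
          omega
        · rw [if_neg (by omega), if_neg hnk] at hB
          omega

/-- The sufficiency half of the theorem of Erdős and Gallai. -/
theorem erdosGallai : ∀ (S : ℕ) (d : I → ℕ), ∑ i, d i = S → Even S → (∀ K : Finset I, EGIneq d K) →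
    ∃ H : SimpleGraph I, ∀ i, dg H i = d i := by
  intro S
  induction S using Nat.strong_induction_on with
  | _ S ih =>
    intro d hS heven hEG
    by_cases hzero : ∀ i, d i = 0
    · refine ⟨⊥, fun i => ?_⟩
      rw [hzero i]
      unfold dg
      simp
    · push Not at hzero
      obtain ⟨i0, hi0⟩ := hzero
      -- an index of maximum value
      obtain ⟨t, -, ht⟩ := exists_max_image (univ : Finset I) d ⟨i0, mem_univ _⟩
      have ht' : ∀ i, d i ≤ d t := fun i => ht i (mem_univ i)
      have ht1 : 1 ≤ d t := by have := ht' i0; omega
      have hcount : d t ≤ ((univ.erase t).filter (fun i => 1 ≤ d i)).card := by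
        have := hEG {t}
        unfold EGIneq at this
        simp only [sum_singleton, card_singleton, Nat.sub_self, mul_zero, zero_add] at this
        have h2 : ∑ i ∈ ({t} : Finset I)ᶜ, min 1 (d i) = ((univ.erase t).filter (fun i => 1 ≤ d i)).card := by
          rw [card_filter]
          have : ({t} : Finset I)ᶜ = univ.erase t := by ext; simp
          rw [this]
          refine sum_congr rfl fun i _ => ?_
          split_ifs with h
          · omega
          · omega
        rw [← h2]; exact this
      have hne : ((univ.erase t).filter (fun i => 1 ≤ d i)).Nonempty := by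
        rw [← card_pos]; omega
      obtain ⟨n, hn, hnmin⟩ := exists_min_image _ d hne
      simp only [mem_filter, mem_erase, mem_univ, and_true] at hn
      obtain ⟨hnt, hn1⟩ := hn
      have hmin : ∀ i, 1 ≤ d i → d n ≤ d i := by
        intro i hi
        by_cases hit : i = t
        · rw [hit]; exact ht' n
        · exact hnmin i (by simp [hit, hi])
      -- the lowered sequence
      let d' : I → ℕ := fun i => d i - (if i = t then 1 else 0) - (if i = n then 1 else 0)
      have hd' : ∀ i, d' i + (if i = t then 1 else 0) + (if i = n then 1 else 0) = d i := by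
        intro i
        show d i - (if i = t then 1 else 0) - (if i = n then 1 else 0) + _ + _ = d i
        by_cases h1 : i = t
        · have h2 : i ≠ n := by rw [h1]; exact hnt.symm
          rw [if_pos h1, if_neg h2, h1]; omega
        · by_cases h2 : i = n
          · rw [if_neg h1, if_pos h2, h2]; omega
          · rw [if_neg h1, if_neg h2]; omega
      have hsum : ∑ i, d' i + 2 = S := by
        have h1 : ∑ i, (d' i + (if i = t then 1 else 0) + (if i = n then 1 else 0)) = ∑ i, d i :=
          sum_congr rfl fun i _ => hd' i
        rw [sum_add_distrib, sum_add_distrib] at h1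
        simp only [sum_ite_eq', mem_univ, if_true] at h1
        omega
      have hEG' : ∀ K : Finset I, EGIneq d' K := by
        intro K
        exact lowered_ineq S d t n hnt.symm hS heven hEG ht' hn1 d' hd' K
      obtain ⟨H, hH⟩ := ih (∑ i, d' i) (by omega) d' rfl (by
        obtain ⟨r, hr⟩ := heven
        exact ⟨r - 1, by omega⟩) hEG'
      exact lift_real d t n hnt.symm hn1 hmin hcount H (fun i => by rw [hH i]; exact hd' i)

end Pool.Agent.MP_440a65_co
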