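import Mathlib

/-!
The key inequality: for every set `K` of edges of a graph all of whose edge imbalances are
positive, the Erdős–Gallai inequality for the imbalances holds.
-/

set_option autoImplicit false

namespace Pool.Agent.MP_440a65_co

open Finset

/-- The imbalance `|deg u - deg v|` of an unordered pair `{u, v}`. -/
def imb {V : Type*} [Fintype V] (G : SimpleGraph V) [DecidableRel G.Adj] (e : Sym2 V) : ℕ :=
  Sym2.lift ⟨fun u v => ((G.degree u : ℤ) - (G.degree v : ℤ)).natAbs, fun u v => by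
    show Int.natAbs _ = Int.natAbs _
    omega⟩ e

lemma imb_mk {V : Type*} [Fintype V] (G : SimpleGraph V) [DecidableRel G.Adj] (u v : V) :
    imb G s(u, v) = ((G.degree u : ℤ) - (G.degree v : ℤ)).natAbs := rfl

/-- the final arithmetic step -/
lemma arith (k ks D w y : ℤ) (h1 : 1 ≤ ks) (h2 : ks ≤ k) (h3 : k < D) (hw : 0 ≤ w)
    (hy : 0 ≤ y) (h : y + w + ks = D) :
    2 * (k * (D - k)) ≤ 2 * (y * k) + 2 * (w * (D - 1)) - w * (w - 1) - 2 * (k - ks) := by
  obtain ⟨a, ha⟩ : ∃ a, a = k - ks := ⟨_, rfl⟩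
  obtain ⟨b, hb⟩ : ∃ b, b = D - k := ⟨_, rfl⟩
  have ha0 : 0 ≤ a := by omega
  have hb1 : 1 ≤ b := by omega
  have hak : a ≤ k - 1 := by omega
  have hwab : w ≤ a + b := by omega
  have hyy : y = D - ks - w := by omega
  have key : 0 ≤ 2 * ((k - 1) * a) + w * (2 * b - 1 - w) := by
    have h4 : a * a ≤ (k - 1) * a := mul_le_mul_of_nonneg_right hak ha0
    by_cases hc : w ≤ 2 * b - 1
    · have : 0 ≤ w * (2 * b - 1 - w) := mul_nonneg hw (by omega)
      nlinarith
    · push Not at hc
      have h5 : w * (w + 1 - 2 * b) ≤ (a + b) * (a + b + 1 - 2 * b) :=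
        mul_le_mul hwab (by omega) (by omega) (by omega)
      have h6 : 0 ≤ a * (a - 1) := by
        rcases lt_or_ge a 1 with h | h
        · have : a = 0 := by omega
          simp [this]
        · exact mul_nonneg ha0 (by omega)
      have h7 : 0 ≤ b * (b - 1) := mul_nonneg (by omega) (by omega)
      nlinarith
  have e : 2 * (y * k) + 2 * (w * (D - 1)) - w * (w - 1) - 2 * (k - ks) - 2 * (k * (D - k))
      = 2 * ((k - 1) * a) + w * (2 * b - 1 - w) := by
    rw [hyy, ha, hb]; ring
  linarith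

variable {V : Type*} [Fintype V] [DecidableEq V]

omit [DecidableEq V] in
lemma imb_le (G : SimpleGraph V) [DecidableRel G.Adj] (u v : V) (h : G.Adj u v) (D : ℕ)
    (hu : G.degree u ≤ D) (hv : G.degree v ≤ D) : imb G s(u, v) + 1 ≤ D := by
  rw [imb_mk]
  have h1 : 0 < G.degree u := (G.degree_pos_iff_exists_adj u).2 ⟨v, h⟩
  have h2 : 0 < G.degree v := (G.degree_pos_iff_exists_adj v).2 ⟨u, h.symm⟩
  omega

/-- Counting the edges that meet `W` and avoid `u`. -/
lemma count_edges (G : SimpleGraph V) [DecidableRel G.Adj] (u : V) (W : Finset V)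
    (hW : ∀ w ∈ W, G.Adj u w) :
    ∑ w ∈ W, (G.degree w - 1) ≤
      (G.edgeFinset.filter (fun f => u ∉ f ∧ ∃ w ∈ W, w ∈ f)).card + W.card.choose 2 := by
  set P := G.edgeFinset.filter (fun f => u ∉ f ∧ ∃ w ∈ W, w ∈ f) with hP
  have h1 : ∀ w ∈ W, G.degree w - 1 = (P.filter (fun f => w ∈ f)).card := by
    intro w hw
    have h2 : P.filter (fun f => w ∈ f) = (G.incidenceFinset w).erase s(u, w) := by
      ext f
      simp only [hP, mem_filter, SimpleGraph.mem_edgeFinset, mem_erase, SimpleGraph.mem_incidenceFinset,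
        SimpleGraph.incidenceSet, Set.mem_ofPred_eq, ne_eq]
      constructor
      · rintro ⟨⟨hf, huf, -⟩, hwf⟩
        refine ⟨?_, hf, hwf⟩
        rintro rfl
        exact huf (Sym2.mem_mk_left u w)
      · rintro ⟨hne, hf, hwf⟩
        refine ⟨⟨hf, ?_, w, hw, hwf⟩, hwf⟩
        intro huf
        apply hne
        exact ((Sym2.mem_and_mem_iff (hW w hw).ne).1 ⟨huf, hwf⟩)
    rw [h2, card_erase_of_mem, SimpleGraph.card_incidenceFinset_eq_degree]
    rw [SimpleGraph.mem_incidenceFinset]
    exact ⟨hW w hw, Sym2.mem_mk_right u w⟩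
  rw [sum_congr rfl h1]
  have h3 : ∑ w ∈ W, (P.filter (fun f => w ∈ f)).card = ∑ f ∈ P, (W.filter (fun w => w ∈ f)).card := by
    simp only [card_filter]
    rw [sum_comm]
  rw [h3]
  -- each edge meets `W` at most once, or twice if inside `W`
  have h4 : ∀ f ∈ P, (W.filter (fun w => w ∈ f)).card ≤ 1 + (if (∀ w ∈ f, w ∈ W) then 1 else 0) := by
    intro f hf
    induction f using Sym2.ind with
    | _ a b =>
      have hsub : W.filter (fun w => w ∈ s(a, b)) ⊆ {a, b} := by
        intro w hw
        simp only [mem_filter, Sym2.mem_iff] at hw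
        simp only [mem_insert, mem_singleton]
        exact hw.2
      split_ifs with hall
      · exact le_trans (card_le_card hsub) card_le_two
      · have hall' : ¬ (a ∈ W ∧ b ∈ W) := by
          rintro ⟨h5, h6⟩
          apply hall
          intro w hw
          rcases Sym2.mem_iff.1 hw with rfl | rfl <;> assumption
        rw [add_zero, card_le_one]
        intro x hx y hy
        simp only [mem_filter, Sym2.mem_iff] at hx hy
        rcases hx with ⟨hx1, rfl | rfl⟩ <;> rcases hy with ⟨hy1, rfl | rfl⟩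
        · rfl
        · exact absurd ⟨hx1, hy1⟩ hall'
        · exact absurd ⟨hy1, hx1⟩ hall'
        · rfl
  refine le_trans (sum_le_sum h4) ?_
  rw [sum_add_distrib, ← card_eq_sum_ones, ← sum_filter, ← card_eq_sum_ones]
  refine Nat.add_le_add_left ?_ _
  rw [← Sym2.card_image_offDiag]
  apply card_le_card
  intro f hf
  rw [mem_filter, hP, mem_filter, SimpleGraph.mem_edgeFinset] at hf
  obtain ⟨⟨hf1, -⟩, hf2⟩ := hf
  induction f using Sym2.ind with
  | _ a b =>
    rw [mem_image]
    refine ⟨(a, b), ?_, rfl⟩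
    rw [mem_offDiag]
    exact ⟨hf2 a (Sym2.mem_mk_left a b), hf2 b (Sym2.mem_mk_right a b), G.ne_of_adj hf1⟩

/-- The Erdős–Gallai inequality for the imbalances and an arbitrary set `K` of edges. -/
theorem key_ineq (G : SimpleGraph V) [DecidableRel G.Adj]
    (hG : ∀ e ∈ G.edgeFinset, 0 < imb G e) (K : Finset (Sym2 V)) (hK : K ⊆ G.edgeFinset) :
    ∑ e ∈ K, imb G e ≤ K.card * (K.card - 1) + ∑ e ∈ G.edgeFinset \ K, min K.card (imb G e) := by
  rcases K.eq_empty_or_nonempty with rfl | hne
  · simp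
  -- a vertex of largest degree among those covered by `K`
  have hT : (univ.filter (fun v : V => ∃ e ∈ K, v ∈ e)).Nonempty := by
    obtain ⟨e, he⟩ := hne
    induction e using Sym2.ind with
    | _ a b => exact ⟨a, by simp only [mem_filter, mem_univ, true_and]; exact ⟨_, he, Sym2.mem_mk_left a b⟩⟩
  obtain ⟨u, huT, humax⟩ := exists_max_image _ (fun v => G.degree v) hT
  simp only [mem_filter, mem_univ, true_and] at huT humax
  set k := K.card with hk
  set D := G.degree u with hD
  have hk1 : 1 ≤ k := card_pos.2 hne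
  have himb : ∀ e ∈ K, imb G e ≤ D - 1 := by
    intro e he
    induction e using Sym2.ind with
    | _ a b =>
      have := imb_le G a b (by simpa using hK he) D (humax a ⟨_, he, Sym2.mem_mk_left a b⟩)
        (humax b ⟨_, he, Sym2.mem_mk_right a b⟩)
      omega
  have hsumK : ∑ e ∈ K, imb G e ≤ k * (D - 1) := by
    have := sum_le_card_nsmul K (imb G) (D - 1) himb
    simpa [hk] using this
  rcases Nat.lt_or_ge k D with hlt | hge
  swap
  · have : k * (D - 1) ≤ k * (k - 1) := Nat.mul_le_mul_left k (by omega)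
    omega
  -- the sets of neighbours
  set N := G.neighborFinset u with hN
  set NK := N.filter (fun w => s(u, w) ∈ K) with hNK
  set Y := N.filter (fun w => s(u, w) ∉ K ∧ k ≤ imb G s(u, w)) with hY
  set W := N.filter (fun w => s(u, w) ∉ K ∧ imb G s(u, w) < k) with hW
  have hcardN : N.card = D := G.card_neighborFinset_eq_degree u
  have hpart : NK.card + (Y.card + W.card) = D := by
    rw [← hcardN]
    have h1 : Y.card + W.card = (N.filter (fun w => s(u, w) ∉ K)).card := by
      rw [hY, hW, ← card_union_of_disjoint]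
      · congr 1
        ext w
        simp only [mem_union, mem_filter]
        constructor
        · rintro (h | h)
          · exact ⟨h.1, h.2.1⟩
          · exact ⟨h.1, h.2.1⟩
        · rintro ⟨h1, h2⟩
          rcases Nat.lt_or_ge (imb G s(u, w)) k with h | h
          · exact Or.inr ⟨h1, h2, h⟩
          · exact Or.inl ⟨h1, h2, h⟩
      · rw [disjoint_left]
        intro w h1 h2
        simp only [mem_filter] at h1 h2
        omega
    rw [h1, hNK]
    exact card_filter_add_card_filter_not _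
  have hinj : Function.Injective (fun w : V => s(u, w)) := by
    intro x y hxy
    have h : x = y ∨ u = y ∧ x = u := by simpa using hxy
    rcases h with h | ⟨h1, h2⟩
    · exact h
    · exact h2.trans h1
  have hNKcard : NK.card = (K.filter (fun e => u ∈ e)).card := by
    rw [← card_image_of_injective NK hinj]
    congr 1
    ext e
    simp only [mem_image, hNK, mem_filter]
    constructor
    · rintro ⟨w, ⟨-, hw⟩, rfl⟩
      exact ⟨hw, Sym2.mem_mk_left u w⟩
    · rintro ⟨he, hue⟩
      obtain ⟨w, rfl⟩ := Sym2.mem_iff_exists.1 hue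
      refine ⟨w, ⟨?_, he⟩, rfl⟩
      rw [hN, SimpleGraph.mem_neighborFinset]
      simpa using hK he
  have hKsplit : (K.filter (fun e => u ∈ e)).card + (K.filter (fun e => u ∉ e)).card = k := by
    rw [hk]
    exact card_filter_add_card_filter_not _
  have hks1 : 1 ≤ NK.card := by
    rw [hNKcard, Nat.one_le_iff_ne_zero, Ne, card_eq_zero, ← Ne, ← nonempty_iff_ne_empty]
    obtain ⟨e, he, hue⟩ := huT
    exact ⟨e, by simp [he, hue]⟩
  -- edges meeting `W`
  set P := G.edgeFinset.filter (fun f => u ∉ f ∧ ∃ w ∈ W, w ∈ f) with hP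
  have hWadj : ∀ w ∈ W, G.Adj u w := by
    intro w hw
    rw [hW, mem_filter, hN, SimpleGraph.mem_neighborFinset] at hw
    exact hw.1
  have hcount := count_edges G u W hWadj
  rw [← hP] at hcount
  -- splitting the sum outside `K`
  have hR : ∑ f ∈ G.edgeFinset \ K, min k (imb G f) =
      ∑ f ∈ (G.edgeFinset \ K).filter (fun f => u ∈ f), min k (imb G f)
      + ∑ f ∈ (G.edgeFinset \ K).filter (fun f => u ∉ f), min k (imb G f) :=
    (sum_filter_add_sum_filter_not _ _ _).symm
  have hR1 : ∑ f ∈ (G.edgeFinset \ K).filter (fun f => u ∈ f), min k (imb G f)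
      = Y.card * k + ∑ w ∈ W, imb G s(u, w) := by
    have h1 : (G.edgeFinset \ K).filter (fun f => u ∈ f) = (Y ∪ W).image (fun w => s(u, w)) := by
      ext e
      simp only [mem_image, mem_union, mem_filter, mem_sdiff, hY, hW, hN,
        SimpleGraph.mem_neighborFinset, SimpleGraph.mem_edgeFinset]
      constructor
      · rintro ⟨⟨he, heK⟩, hue⟩
        obtain ⟨w, rfl⟩ := Sym2.mem_iff_exists.1 hue
        refine ⟨w, ?_, rfl⟩
        rcases Nat.lt_or_ge (imb G s(u, w)) k with h | h
        · exact Or.inr ⟨he, heK, h⟩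
        · exact Or.inl ⟨he, heK, h⟩
      · rintro ⟨w, h | h, rfl⟩
        · exact ⟨⟨h.1, h.2.1⟩, Sym2.mem_mk_left u w⟩
        · exact ⟨⟨h.1, h.2.1⟩, Sym2.mem_mk_left u w⟩
    have hdisj : Disjoint Y W := by
      rw [disjoint_left]
      intro w h1 h2
      simp only [hY, hW, mem_filter] at h1 h2
      omega
    rw [h1, sum_image (fun x _ y _ h => hinj h), sum_union hdisj]
    congr 1
    · rw [← smul_eq_mul, ← sum_const]
      refine sum_congr rfl fun w hw => ?_
      rw [hY, mem_filter] at hw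
      omega
    · refine sum_congr rfl fun w hw => ?_
      rw [hW, mem_filter] at hw
      omega
  have hR2 : P.card - (K.filter (fun e => u ∉ e)).card ≤
      ∑ f ∈ (G.edgeFinset \ K).filter (fun f => u ∉ f), min k (imb G f) := by
    have h1 : P.card ≤ (K.filter (fun e => u ∉ e)).card +
        ((G.edgeFinset \ K).filter (fun f => u ∉ f)).card := by
      rw [← card_union_of_disjoint]
      · apply card_le_card
        intro f hf
        rw [hP, mem_filter] at hf
        rw [mem_union, mem_filter, mem_filter, mem_sdiff]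
        by_cases hfK : f ∈ K
        · exact Or.inl ⟨hfK, hf.2.1⟩
        · exact Or.inr ⟨⟨hf.1, hfK⟩, hf.2.1⟩
      · rw [disjoint_left]
        intro f h1 h2
        rw [mem_filter] at h1
        rw [mem_filter, mem_sdiff] at h2
        exact h2.1.2 h1.1
    have h2 : ((G.edgeFinset \ K).filter (fun f => u ∉ f)).card ≤
        ∑ f ∈ (G.edgeFinset \ K).filter (fun f => u ∉ f), min k (imb G f) := by
      rw [card_eq_sum_ones]
      refine sum_le_sum fun f hf => ?_
      rw [mem_filter, mem_sdiff] at hf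
      have := hG f hf.1.1
      omega
    omega
  have hW1 : W.card * (D - 1) ≤ ∑ w ∈ W, imb G s(u, w) + ∑ w ∈ W, (G.degree w - 1) := by
    rw [← sum_add_distrib, ← smul_eq_mul, ← sum_const]
    refine sum_le_sum fun w hw => ?_
    rw [imb_mk, ← hD]
    omega
  -- conclusion
  have hchoose : 2 * W.card.choose 2 = W.card * (W.card - 1) := by
    rw [Nat.choose_two_right]
    exact Nat.mul_div_cancel' (Nat.even_mul_pred_self _).two_dvd
  have har := arith (k : ℤ) (NK.card : ℤ) (D : ℤ) (W.card : ℤ) (Y.card : ℤ) (by exact_mod_cast hks1)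
    (by rw [hNKcard]; exact_mod_cast (by omega : (K.filter (fun e => u ∈ e)).card ≤ k))
    (by exact_mod_cast hlt) (by positivity) (by positivity) (by
      have : ((NK.card + (Y.card + W.card) : ℕ) : ℤ) = (D : ℤ) := by rw [hpart]
      push_cast at this
      linarith)
  obtain ⟨D', hD'⟩ : ∃ D', D = D' + 1 := ⟨D - 1, by omega⟩
  obtain ⟨k', hk'⟩ : ∃ k', k = k' + 1 := ⟨k - 1, by omega⟩
  have hR' := hR
  rw [hR1] at hR'
  have hchooseZ : (2 : ℤ) * (W.card.choose 2 : ℤ) = (W.card : ℤ) * ((W.card : ℤ) - 1) := by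
    rcases Nat.eq_zero_or_pos W.card with h0 | h0
    · rw [h0]; simp
    · obtain ⟨w', hw'⟩ : ∃ w', W.card = w' + 1 := ⟨W.card - 1, by omega⟩
      rw [hw'] at hchoose ⊢
      simp only [Nat.add_sub_cancel] at hchoose
      push_cast
      have : ((2 * (w' + 1).choose 2 : ℕ) : ℤ) = (((w' + 1) * w' : ℕ) : ℤ) := by rw [hchoose]
      push_cast at this
      rw [this]; ring
  have goalZ : (∑ e ∈ K, imb G e : ℤ) ≤ (k : ℤ) * ((k : ℤ) - 1) +
      (∑ f ∈ G.edgeFinset \ K, min k (imb G f) : ℕ) := by
    have z1 : (∑ e ∈ K, imb G e : ℤ) ≤ (k : ℤ) * ((D : ℤ) - 1) := by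
      have : ((∑ e ∈ K, imb G e : ℕ) : ℤ) ≤ ((k * (D - 1) : ℕ) : ℤ) := by exact_mod_cast hsumK
      rw [hD'] at this ⊢
      push_cast at this ⊢
      simpa using this
    have z2 : (W.card : ℤ) * ((D : ℤ) - 1) ≤
        (∑ w ∈ W, imb G s(u, w) : ℕ) + (∑ w ∈ W, (G.degree w - 1) : ℕ) := by
      have : ((W.card * (D - 1) : ℕ) : ℤ) ≤
        ((∑ w ∈ W, imb G s(u, w) + ∑ w ∈ W, (G.degree w - 1) : ℕ) : ℤ) := by exact_mod_cast hW1
      rw [hD'] at this ⊢
      simpa using this
    have z3 : ((∑ w ∈ W, (G.degree w - 1) : ℕ) : ℤ) ≤ (P.card : ℤ) + (W.card.choose 2 : ℤ) := by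
      exact_mod_cast hcount
    have z4 : (P.card : ℤ) - ((k : ℤ) - (NK.card : ℤ)) ≤
        ((∑ f ∈ (G.edgeFinset \ K).filter (fun f => u ∉ f), min k (imb G f) : ℕ) : ℤ) := by
      have h5 : P.card ≤ (∑ f ∈ (G.edgeFinset \ K).filter (fun f => u ∉ f), min k (imb G f))
        + (K.filter (fun e => u ∉ e)).card := by omega
      have h6 : ((K.filter (fun e => u ∉ e)).card : ℤ) = (k : ℤ) - (NK.card : ℤ) := by
        rw [hNKcard]
        have : (((K.filter (fun e => u ∈ e)).card + (K.filter (fun e => u ∉ e)).card : ℕ) : ℤ) = (k : ℤ) := by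
          rw [hKsplit]
        push_cast at this
        linarith
      have h7 : (P.card : ℤ) ≤ ((∑ f ∈ (G.edgeFinset \ K).filter (fun f => u ∉ f), min k (imb G f) : ℕ) : ℤ)
        + ((K.filter (fun e => u ∉ e)).card : ℤ) := by exact_mod_cast h5
      rw [h6] at h7
      linarith
    have z5 : ((∑ f ∈ G.edgeFinset \ K, min k (imb G f) : ℕ) : ℤ) = (Y.card : ℤ) * (k : ℤ)
        + ((∑ w ∈ W, imb G s(u, w) : ℕ) : ℤ)
        + ((∑ f ∈ (G.edgeFinset \ K).filter (fun f => u ∉ f), min k (imb G f) : ℕ) : ℤ) := by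
      exact_mod_cast hR'
    rw [z5]
    nlinarith
  have e : ((k : ℤ) * ((k : ℤ) - 1)) = ((k * (k - 1) : ℕ) : ℤ) := by
    rw [hk']; push_cast; simp
  rw [e] at goalZ
  exact_mod_cast goalZ

end Pool.Agent.MP_440a65_co
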