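import Mathlib
import Pool.Agent.Lib.MP_440a65_co.Inequality

/-!
The sum of the edge imbalances is even.
-/

set_option autoImplicit false

namespace Pool.Agent.MP_440a65_co

open Finset

variable {V : Type*} [Fintype V] [DecidableEq V]

lemma even_sum_imb (G : SimpleGraph V) [DecidableRel G.Adj] :
    Even (∑ e ∈ G.edgeFinset, imb G e) := by
  -- the sum of the end degrees of an edge
  let s : Sym2 V → ℕ := fun e => ∑ v ∈ univ.filter (fun v => v ∈ e), G.degree v
  have h1 : ∑ e ∈ G.edgeFinset, s e = ∑ v, G.degree v * G.degree v := by
    have h2 : ∀ e, s e = ∑ v, if v ∈ e then G.degree v else 0 := fun e => sum_filter _ _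
    simp only [h2]
    rw [sum_comm]
    refine sum_congr rfl fun v _ => ?_
    rw [← sum_filter, sum_const, smul_eq_mul]
    congr 1
    rw [← SimpleGraph.card_incidenceFinset_eq_degree]
    congr 1
    ext e
    simp only [mem_filter, SimpleGraph.mem_edgeFinset, SimpleGraph.mem_incidenceFinset,
      SimpleGraph.incidenceSet, Set.mem_ofPred_eq]
  have h3 : Even (∑ e ∈ G.edgeFinset, s e) := by
    rw [h1]
    have h4 : Even (∑ v, G.degree v) := by
      rw [G.sum_degrees_eq_twice_card_edges]
      exact even_two_mul _
    have h5 : Even (∑ v, (G.degree v * G.degree v + G.degree v)) := by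
      apply Finset.even_sum
      intro v _
      have := Nat.even_mul_succ_self (G.degree v)
      rwa [mul_add, mul_one] at this
    rw [sum_add_distrib] at h5
    exact (Nat.even_add.1 h5).2 h4
  have h6 : Even (∑ e ∈ G.edgeFinset, (imb G e + s e)) := by
    apply Finset.even_sum
    intro e he
    induction e using Sym2.ind with
    | _ a b =>
      have hab : G.Adj a b := by simpa using he
      have h7 : s s(a, b) = G.degree a + G.degree b := by
        show ∑ v ∈ univ.filter (fun v => v ∈ s(a, b)), G.degree v = _
        have : univ.filter (fun v => v ∈ s(a, b)) = {a, b} := by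
          ext v; simp
        rw [this, sum_pair hab.ne]
      rw [h7, imb_mk]
      rw [Nat.even_iff]
      omega
  rw [sum_add_distrib] at h6
  exact (Nat.even_add.1 h6).2 h3

end Pool.Agent.MP_440a65_co
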